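import Pool.Agent.Lib.MP_a7495c_an.Discretize

/-!
Answer to Q2: on every compact set on which a finite measure with the Riesz Bernstein–Markov
property exists, there is also a discrete one.
-/

open MeasureTheory Set Filter
open Pool.Agent.Lib.MP_a7495c_an

namespace Pool.Agent.Results.MP_a7495c_an.DiscreteBM

/-- Let `α > 0` and let `K ⊆ ℝ^d` be compact. If some finite positive Borel measure on `K` has the
Riesz Bernstein–Markov property, then some discrete finite positive measure on `K` has it. -/
theorem result (d : ℕ) (α : ℝ) (hα : 0 < α) (K : Set (EuclideanSpace ℝ (Fin d)))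
    (hK : IsCompact K)
    (h : ∃ μ : Measure (EuclideanSpace ℝ (Fin d)), IsFiniteMeasure μ ∧ μ Kᶜ = 0 ∧
      BernsteinMarkov α K μ) :
    ∃ μ : Measure (EuclideanSpace ℝ (Fin d)), IsFiniteMeasure μ ∧ μ Kᶜ = 0 ∧ IsDiscreteOn K μ ∧
      BernsteinMarkov α K μ := by
  obtain ⟨μ, hfin, hμK, hBM⟩ := h
  exact exists_discrete_bm hα hK hμK hBM

end Pool.Agent.Results.MP_a7495c_an.DiscreteBM
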