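import Pool.Agent.Lib.MP_a7495c_an.Main

/-!
Answer to Q1: every compact set of positive Riesz capacity carries a finite positive measure with
the (unweighted) Riesz Bernstein–Markov property; the measure can be chosen discrete.
-/

open MeasureTheory Set Filter
open Pool.Agent.Lib.MP_a7495c_an

namespace Pool.Agent.Results.MP_a7495c_an.PositiveCapacityBM

/-- Let `α > 0` and let `K ⊆ ℝ^d` be a compact set of positive Riesz `α`-capacity. Then there is a
finite positive Borel measure `μ` on `K`, which is moreover discrete, with the Riesz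
Bernstein–Markov property. -/
theorem result (d : ℕ) (α : ℝ) (hα : 0 < α) (K : Set (EuclideanSpace ℝ (Fin d)))
    (hK : IsCompact K) (hcap : PositiveCapacity α K) :
    ∃ μ : Measure (EuclideanSpace ℝ (Fin d)), IsFiniteMeasure μ ∧ μ Kᶜ = 0 ∧ IsDiscreteOn K μ ∧
      BernsteinMarkov α K μ := by
  obtain ⟨μ, hfin, hμK, hdisc, c, hc, hμ⟩ := exists_discrete_measure hK.isBounded
  exact ⟨μ, hfin, hμK, hdisc, bm_of_capacity hα hcap hc one_pos hμ⟩

end Pool.Agent.Results.MP_a7495c_an.PositiveCapacityBM
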